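import Mathlib

set_option autoImplicit false

/-! Minimal even sets for a linear weight (combinatorics of the faces of the half cube). -/

namespace Pool.Agent.H9.DC

open Finset
open scoped symmDiff

variable {d : ℕ}

lemma card_symm (A B : Finset (Fin d)) : (A ∆ B).card + 2 * (A ∩ B).card = A.card + B.card := by
  have h1 : (A ∆ B).card = (A \ B).card + (B \ A).card := by
    rw [symmDiff_def, Finset.sup_eq_union]
    exact Finset.card_union_of_disjoint (disjoint_sdiff_sdiff)
  have h2 := Finset.card_sdiff_add_card_inter A B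
  have h3 := Finset.card_sdiff_add_card_inter B A
  rw [Finset.inter_comm B A] at h3
  omega

lemma odd_symm {A : Finset (Fin d)} (hA : Odd A.card) (B : Finset (Fin d)) :
    Odd (A ∆ B).card ↔ Even B.card := by
  have h := card_symm A B
  rw [Nat.odd_iff] at *
  rw [Nat.even_iff]
  omega

lemma odd_symm' {A : Finset (Fin d)} (hA : Even A.card) (B : Finset (Fin d)) :
    Even (A ∆ B).card ↔ Even B.card := by
  have h := card_symm A B
  simp only [Nat.even_iff] at *
  omega

lemma even_flip {A : Finset (Fin d)} (hA : Odd A.card) {D : Finset (Fin d)} (hD : Odd D.card) :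
    Even (A ∆ D).card := by
  have h := card_symm A D
  rw [Nat.odd_iff] at *
  rw [Nat.even_iff]
  omega

lemma symm_symm (A D : Finset (Fin d)) : A ∆ (A ∆ D) = D := symmDiff_symmDiff_cancel_left A D

/-- vertex family of a simplex face -/
def simpV (A T : Finset (Fin d)) : Set (Finset (Fin d)) := {B | ∃ j ∈ T, A ∆ B = {j}}

/-- vertex family of a half cube face -/
def demiV (A S : Finset (Fin d)) : Set (Finset (Fin d)) := {B | Odd (A ∆ B).card ∧ A ∆ B ⊆ S}

/-- the even sets of least weight -/
def minV (a : Fin d → ℝ) : Set (Finset (Fin d)) :=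
  {B | Even B.card ∧ ∀ C : Finset (Fin d), Even C.card → ∑ i ∈ B, a i ≤ ∑ i ∈ C, a i}

/-- `A` is the set of the negative coefficients, up to zeros. -/
def Compat (a : Fin d → ℝ) (A : Finset (Fin d)) : Prop :=
  ∀ i, (a i < 0 → i ∈ A) ∧ (0 < a i → i ∉ A)

lemma sum_compat {a : Fin d → ℝ} {A : Finset (Fin d)} (h : Compat a A) (C : Finset (Fin d)) :
    ∑ i ∈ C, a i = ∑ i ∈ A, a i + ∑ i ∈ A ∆ C, |a i| := by
  classical
  have key : ∀ (D : Finset (Fin d)) (g : Fin d → ℝ), ∑ i ∈ D, g i = ∑ i, (if i ∈ D then g i else 0) := by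
    intro D g
    simp
  rw [key C, key A, key (A ∆ C), ← Finset.sum_add_distrib]
  refine Finset.sum_congr rfl fun i _ => ?_
  obtain ⟨h1, h2⟩ := h i
  by_cases hA : i ∈ A <;> by_cases hC : i ∈ C <;> simp [Finset.mem_symmDiff, hA, hC]
  · have : a i ≤ 0 := le_of_not_gt fun h3 => h2 h3 hA
    rw [abs_of_nonpos this]; ring
  · have : 0 ≤ a i := le_of_not_gt fun h3 => hA (h1 h3)
    rw [abs_of_nonneg this]

lemma minV_zero {a : Fin d → ℝ} {A : Finset (Fin d)} (h : Compat a A) (hA : Odd A.card)
    {z : Fin d} (hz : a z = 0) : minV a = demiV A (univ.filter fun i => a i = 0) := by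
  ext B
  simp only [minV, demiV, Set.mem_setOf_eq]
  constructor
  · rintro ⟨hB, hmin⟩
    refine ⟨(odd_symm hA B).2 hB, ?_⟩
    have h1 := hmin (A ∆ {z}) (even_flip hA (by simp))
    rw [sum_compat h B, sum_compat h (A ∆ {z}), symm_symm] at h1
    simp only [Finset.sum_singleton, hz, abs_zero, add_zero] at h1
    have h2 : ∑ i ∈ A ∆ B, |a i| = 0 :=
      le_antisymm (by linarith) (Finset.sum_nonneg fun i _ => abs_nonneg _)
    intro i hi
    have h3 := (Finset.sum_eq_zero_iff_of_nonneg fun i _ => abs_nonneg (a i)).1 h2 i hi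
    simpa using h3
  · rintro ⟨hB, hsub⟩
    refine ⟨(odd_symm hA B).1 hB, fun C _ => ?_⟩
    rw [sum_compat h B, sum_compat h C]
    have h2 : ∑ i ∈ A ∆ B, |a i| = 0 := by
      refine Finset.sum_eq_zero fun i hi => ?_
      have := hsub hi
      simpa using this
    rw [h2]
    have : 0 ≤ ∑ i ∈ A ∆ C, |a i| := Finset.sum_nonneg fun i _ => abs_nonneg _
    linarith

lemma minV_nonzero {a : Fin d → ℝ} {A : Finset (Fin d)} (h : Compat a A) (hA : Odd A.card)
    (hz : ∀ i, a i ≠ 0) (hd : 0 < d) :
    minV a = simpV A (univ.filter fun j => ∀ i, |a j| ≤ |a i|) := by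
  haveI : Nonempty (Fin d) := ⟨⟨0, hd⟩⟩
  obtain ⟨j0, hj0⟩ := Finite.exists_min (fun j => |a j|)
  ext B
  simp only [minV, simpV, Set.mem_setOf_eq, Finset.mem_filter, Finset.mem_univ, true_and]
  constructor
  · rintro ⟨hB, hmin⟩
    have h1 := hmin (A ∆ {j0}) (even_flip hA (by simp))
    rw [sum_compat h B, sum_compat h (A ∆ {j0}), symm_symm] at h1
    simp only [Finset.sum_singleton] at h1
    have hodd := (odd_symm hA B).2 hB
    have hne : (A ∆ B).Nonempty := by
      rw [← Finset.card_pos]; exact hodd.pos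
    obtain ⟨j, hj⟩ := hne
    have hone : A ∆ B = {j} := by
      by_contra hcon
      have : ∃ i ∈ A ∆ B, i ≠ j := by
        by_contra hno
        push Not at hno
        exact hcon (Finset.eq_singleton_iff_unique_mem.2 ⟨hj, hno⟩)
      obtain ⟨i, hi, hij⟩ := this
      have h2 : |a j| + |a i| ≤ ∑ x ∈ A ∆ B, |a x| := by
        rw [← Finset.sum_pair hij.symm (f := fun x => |a x|)]
        refine Finset.sum_le_sum_of_subset_of_nonneg ?_ fun _ _ _ => abs_nonneg _
        intro x hx
        simp only [Finset.mem_insert, Finset.mem_singleton] at hx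
        rcases hx with rfl | rfl
        · exact hj
        · exact hi
      have h3 := hj0 j
      have h4 : 0 < |a i| := abs_pos.2 (hz i)
      linarith
    refine ⟨j, fun i => ?_, hone⟩
    rw [hone] at h1
    simp only [Finset.sum_singleton] at h1
    have := hj0 i
    linarith
  · rintro ⟨j, hj, hB⟩
    refine ⟨(odd_symm hA B).1 (by rw [hB]; simp), fun C hC => ?_⟩
    rw [sum_compat h B, sum_compat h C, hB]
    simp only [Finset.sum_singleton]
    have hodd := (odd_symm hA C).2 hC
    have hne : (A ∆ C).Nonempty := by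
      rw [← Finset.card_pos]; exact hodd.pos
    obtain ⟨i, hi⟩ := hne
    have h2 : |a i| ≤ ∑ x ∈ A ∆ C, |a x| :=
      Finset.single_le_sum (f := fun x => |a x|) (fun _ _ => abs_nonneg _) hi
    have := hj i
    linarith

lemma demiV_small {A S : Finset (Fin d)} (hS : S.card ≤ 2) : demiV A S = simpV A S := by
  ext B
  simp only [demiV, simpV, Set.mem_setOf_eq]
  constructor
  · rintro ⟨h1, h2⟩
    have h3 := Finset.card_le_card h2
    have h4 : (A ∆ B).card = 1 := by
      rw [Nat.odd_iff] at h1
      omega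
    obtain ⟨j, hj⟩ := Finset.card_eq_one.1 h4
    exact ⟨j, h2 (by rw [hj]; simp), hj⟩
  · rintro ⟨j, hj, hB⟩
    rw [hB]
    exact ⟨by simp, by simpa using hj⟩

lemma classify (hd : 0 < d) (a : Fin d → ℝ) :
    (∃ A T : Finset (Fin d), Odd A.card ∧ T.Nonempty ∧ minV a = simpV A T) ∨
    (∃ A S : Finset (Fin d), Odd A.card ∧ 3 ≤ S.card ∧ S ≠ univ ∧ minV a = demiV A S) ∨
    (∀ i, a i = 0) := by
  classical
  set N : Finset (Fin d) := univ.filter fun i => a i < 0 with hN
  by_cases hz : ∃ z, a z = 0
  · obtain ⟨z, hz⟩ := hz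
    have hA : ∃ A, Odd A.card ∧ Compat a A := by
      by_cases hodd : Odd N.card
      · refine ⟨N, hodd, fun i => ⟨fun h => by simp [hN, h], fun h => by simp [hN, h.le]⟩⟩
      · refine ⟨insert z N, ?_, fun i => ⟨fun h => by simp [hN, h], fun h => ?_⟩⟩
        · rw [Finset.card_insert_of_notMem (by simp [hN, hz])]
          rw [Nat.not_odd_iff_even] at hodd
          exact hodd.add_one
        · have : i ≠ z := by rintro rfl; linarith
          simp [hN, h.le, this]
    obtain ⟨A, hA, hc⟩ := hA
    have hM := minV_zero hc hA hz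
    set Z : Finset (Fin d) := univ.filter fun i => a i = 0 with hZ
    by_cases h2 : Z.card ≤ 2
    · exact Or.inl ⟨A, Z, hA, ⟨z, by simp [hZ, hz]⟩, by rw [hM, demiV_small h2]⟩
    · by_cases hu : Z = univ
      · refine Or.inr (Or.inr fun i => ?_)
        have : i ∈ Z := by rw [hu]; simp
        simpa [hZ] using this
      · exact Or.inr (Or.inl ⟨A, Z, hA, by omega, hu, hM⟩)
  · push Not at hz
    left
    have hc : Compat a N := fun i => ⟨fun h => by simp [hN, h], fun h => by simp [hN, h.le]⟩
    by_cases hodd : Odd N.card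
    · refine ⟨N, _, hodd, ?_, minV_nonzero hc hodd hz hd⟩
      haveI : Nonempty (Fin d) := ⟨⟨0, hd⟩⟩
      obtain ⟨j0, hj0⟩ := Finite.exists_min (fun j => |a j|)
      exact ⟨j0, by simpa using hj0⟩
    · rw [Nat.not_odd_iff_even] at hodd
      have hA : Odd (N ∆ {(⟨0, hd⟩ : Fin d)}).card := by
        have h := card_symm N {(⟨0, hd⟩ : Fin d)}
        rw [Finset.card_singleton] at h
        rw [Nat.even_iff] at hodd
        rw [Nat.odd_iff]
        omega
      refine ⟨N ∆ {⟨0, hd⟩}, {⟨0, hd⟩}, hA, by simp, ?_⟩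
      ext B
      simp only [minV, simpV, Set.mem_setOf_eq, Finset.mem_singleton, exists_eq_left]
      constructor
      · rintro ⟨hB, hmin⟩
        have h1 := hmin N hodd
        rw [sum_compat hc B] at h1
        have h2 : ∑ i ∈ N ∆ B, |a i| = 0 :=
          le_antisymm (by linarith) (Finset.sum_nonneg fun i _ => abs_nonneg _)
        have h3 : N ∆ B = ∅ := by
          rw [Finset.eq_empty_iff_forall_notMem]
          intro i hi
          have h3 := (Finset.sum_eq_zero_iff_of_nonneg fun i _ => abs_nonneg (a i)).1 h2 i hi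
          exact hz i (by simpa using h3)
        have h4 : B = N := by
          rw [← Finset.bot_eq_empty, symmDiff_eq_bot] at h3
          exact h3.symm
        rw [h4, symmDiff_assoc, symmDiff_comm {(⟨0, hd⟩ : Fin d)} N, ← symmDiff_assoc,
          symmDiff_self, bot_symmDiff]
      · intro hB
        have h4 : B = N := by
          have h5 := congrArg (fun X => (N ∆ {(⟨0, hd⟩ : Fin d)}) ∆ X) hB
          simp only [symm_symm] at h5
          rw [h5, symmDiff_assoc, symmDiff_self, symmDiff_bot]
        rw [h4]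
        refine ⟨hodd, fun C _ => ?_⟩
        rw [sum_compat hc C]
        have : 0 ≤ ∑ i ∈ N ∆ C, |a i| := Finset.sum_nonneg fun i _ => abs_nonneg _
        linarith

end Pool.Agent.H9.DC
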