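import Mathlib
import Pool.Agent.H9.DC.Comb

set_option autoImplicit false

/-! The faces of the half cube. -/

namespace Pool.Agent.H9.DC

open Finset
open scoped symmDiff

variable {d : ℕ}

/-- Euclidean space -/
abbrev E (d : ℕ) := EuclideanSpace ℝ (Fin d)

/-- the sign vector with the entries `-1` on `B` -/
noncomputable def vec (B : Finset (Fin d)) : E d := WithLp.toLp 2 fun i => if i ∈ B then (-1 : ℝ) else 1

@[simp] lemma vec_apply (B : Finset (Fin d)) (i : Fin d) : vec B i = if i ∈ B then (-1 : ℝ) else 1 := rfl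

lemma vec_inj : Function.Injective (vec : Finset (Fin d) → E d) := by
  intro B C h
  ext i
  have := congrArg (fun x : E d => x i) h
  simp only [vec_apply] at this
  by_cases hB : i ∈ B <;> by_cases hC : i ∈ C <;> simp [hB, hC] at this ⊢
  all_goals norm_num at this

/-- the half cube -/
noncomputable def P (d : ℕ) : Set (E d) := convexHull ℝ (vec '' {B : Finset (Fin d) | Even B.card})

/-- nonempty proper faces (exposed faces) -/
def IsFace (Q F : Set (E d)) : Prop := IsExposed ℝ Q F ∧ F.Nonempty ∧ F ≠ Q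

/-- the vertex family of a set -/
def vs (F : Set (E d)) : Set (Finset (Fin d)) := {B | Even B.card ∧ vec B ∈ F}

lemma apply_eq (l : StrongDual ℝ (E d)) (x : E d) :
    l x = ∑ i, x i * l (EuclideanSpace.single i 1) := by
  have h := (EuclideanSpace.basisFun (Fin d) ℝ).sum_repr x
  conv_lhs => rw [← h]
  simp [map_sum]

lemma apply_vec (l : StrongDual ℝ (E d)) (B : Finset (Fin d)) :
    l (vec B) = ∑ i, l (EuclideanSpace.single i 1) - 2 * ∑ i ∈ B, l (EuclideanSpace.single i 1) := by
  classical
  rw [apply_eq, Finset.mul_sum]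
  have : ∑ i ∈ B, 2 * l (EuclideanSpace.single i 1) =
      ∑ i, (if i ∈ B then 2 * l (EuclideanSpace.single i 1) else 0) := by simp
  rw [this, ← Finset.sum_sub_distrib]
  refine Finset.sum_congr rfl fun i _ => ?_
  by_cases h : i ∈ B <;> simp [h]
  ring

/-- the set of the maximal points of a functional -/
def maxSet (Q : Set (E d)) (l : StrongDual ℝ (E d)) : Set (E d) := {x ∈ Q | ∀ y ∈ Q, l y ≤ l x}

lemma mem_P {B : Finset (Fin d)} (hB : Even B.card) : vec B ∈ P d :=
  subset_convexHull _ _ ⟨B, hB, rfl⟩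

lemma vs_maxSet (l : StrongDual ℝ (E d)) :
    vs (maxSet (P d) l) = minV fun i => l (EuclideanSpace.single i 1) := by
  ext B
  constructor
  · rintro ⟨hB, hm⟩
    refine ⟨hB, fun C hC => ?_⟩
    have := hm.2 _ (mem_P hC)
    rw [apply_vec, apply_vec] at this
    linarith
  · rintro ⟨hB, hm⟩
    refine ⟨hB, mem_P hB, fun y hy => ?_⟩
    have hsub : P d ⊆ {y | l y ≤ l (vec B)} := by
      refine convexHull_min ?_ (convex_halfSpace_le l.toLinearMap.isLinear _)
      rintro _ ⟨C, hC, rfl⟩
      have := hm C hC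
      show l (vec C) ≤ l (vec B)
      rw [apply_vec, apply_vec]
      linarith
    exact hsub hy

lemma conv_maxSet (l : StrongDual ℝ (E d)) :
    maxSet (P d) l = convexHull ℝ (vec '' vs (maxSet (P d) l)) := by
  classical
  apply Set.Subset.antisymm
  · rintro x ⟨hx, hmax⟩
    have hfin : (vec '' {B : Finset (Fin d) | Even B.card}).Finite := Set.toFinite _
    have hx' : x ∈ convexHull ℝ (↑hfin.toFinset : Set (E d)) := by
      rw [Set.Finite.coe_toFinset]; exact hx
    rw [Finset.mem_convexHull'] at hx'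
    obtain ⟨w, hw0, hw1, hwx⟩ := hx'
    have hle : ∀ y ∈ hfin.toFinset, l y ≤ l x := by
      intro y hy
      refine hmax y (subset_convexHull _ _ ?_)
      simpa using hy
    have hlx : l x = ∑ y ∈ hfin.toFinset, w y * l y := by
      conv_lhs => rw [← hwx]
      simp [map_sum]
    have hzero : ∑ y ∈ hfin.toFinset, w y * (l x - l y) = 0 := by
      have : ∑ y ∈ hfin.toFinset, w y * (l x - l y) =
          (∑ y ∈ hfin.toFinset, w y) * l x - ∑ y ∈ hfin.toFinset, w y * l y := by
        rw [Finset.sum_mul, ← Finset.sum_sub_distrib]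
        refine Finset.sum_congr rfl fun y _ => by ring
      rw [this, hw1, ← hlx]; ring
    have heach := (Finset.sum_eq_zero_iff_of_nonneg (fun y hy =>
      mul_nonneg (hw0 y hy) (sub_nonneg.2 (hle y hy)))).1 hzero
    have hx2 : x = ∑ y ∈ hfin.toFinset.filter (fun y => w y ≠ 0), w y • y := by
      rw [← hwx, Finset.sum_filter]
      refine Finset.sum_congr rfl fun y _ => ?_
      by_cases h : w y = 0 <;> simp [h]
    rw [hx2]
    refine (convex_convexHull ℝ _).sum_mem ?_ ?_ ?_
    · intro y hy
      exact hw0 y (Finset.mem_filter.1 hy).1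
    · rw [← hw1, Finset.sum_filter]
      refine Finset.sum_congr rfl fun y _ => ?_
      by_cases h : w y = 0 <;> simp [h]
    · intro y hy
      obtain ⟨hy1, hy2⟩ := Finset.mem_filter.1 hy
      have h1 := heach y hy1
      have h2 : l x = l y := by
        rcases mul_eq_zero.1 h1 with h | h
        · exact absurd h hy2
        · linarith
      have h3 : y ∈ vec '' {B : Finset (Fin d) | Even B.card} := by simpa using hy1
      obtain ⟨B, hB, rfl⟩ := h3
      refine subset_convexHull _ _ ⟨B, ⟨hB, mem_P hB, fun z hz => ?_⟩, rfl⟩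
      rw [← h2]
      exact hmax z hz
  · refine convexHull_min ?_ ?_
    · rintro _ ⟨B, ⟨_, hB⟩, rfl⟩
      exact hB
    · intro x hx y hy a b ha hb hab
      refine ⟨(convex_convexHull ℝ _) hx.1 hy.1 ha hb hab, fun z hz => ?_⟩
      have h1 := hx.2 z hz
      have h2 := hy.2 z hz
      simp only [map_add, map_smul, smul_eq_mul]
      calc l z = a * l z + b * l z := by rw [← add_mul, hab, one_mul]
        _ ≤ a * l x + b * l y := by gcongr

lemma isFace_iff (F : Set (E d)) :
    IsFace (P d) F ↔ (∃ l, F = maxSet (P d) l) ∧ F.Nonempty ∧ F ≠ P d := by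
  constructor
  · rintro ⟨h1, h2, h3⟩
    exact ⟨h1 h2, h2, h3⟩
  · rintro ⟨h1, h2, h3⟩
    exact ⟨fun _ => h1, h2, h3⟩

lemma face_conv {F : Set (E d)} (hF : IsFace (P d) F) : F = convexHull ℝ (vec '' vs F) := by
  obtain ⟨⟨l, rfl⟩, -, -⟩ := (isFace_iff F).1 hF
  exact conv_maxSet l

lemma face_le {F G : Set (E d)} (hF : IsFace (P d) F) : F ⊆ G ∨ ¬ F ⊆ G := em _

lemma face_subset {F G : Set (E d)} (hF : IsFace (P d) F) (hG : IsFace (P d) G) :
    F ⊆ G ↔ vs F ⊆ vs G := by
  constructor
  · rintro h B ⟨hB, hm⟩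
    exact ⟨hB, h hm⟩
  · intro h
    rw [face_conv hF, face_conv hG]
    exact convexHull_mono (Set.image_mono h)

lemma face_ext {F G : Set (E d)} (hF : IsFace (P d) F) (hG : IsFace (P d) G) (h : vs F = vs G) :
    F = G := by
  rw [face_conv hF, face_conv hG, h]

/-- simplex faces -/
noncomputable def simp' (A T : Finset (Fin d)) : Set (E d) := convexHull ℝ (vec '' simpV A T)

/-- half cube faces -/
noncomputable def demi (A S : Finset (Fin d)) : Set (E d) := convexHull ℝ (vec '' demiV A S)

/-- the functional with given coefficients -/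
noncomputable def lin (c : Fin d → ℝ) : StrongDual ℝ (E d) := ∑ i, c i • EuclideanSpace.proj i

lemma lin_single (c : Fin d → ℝ) (i : Fin d) : lin c (EuclideanSpace.single i 1) = c i := by
  classical
  simp [lin, ContinuousLinearMap.sum_apply]

lemma flip_mem_demiV {A S : Finset (Fin d)} {j : Fin d} (hj : j ∈ S) : A ∆ {j} ∈ demiV A S := by
  simp [demiV, symm_symm, hj]

lemma flip_mem_simpV {A T : Finset (Fin d)} {j : Fin d} (hj : j ∈ T) : A ∆ {j} ∈ simpV A T :=
  ⟨j, hj, symm_symm _ _⟩

lemma simp_face (hd : 3 ≤ d) {A T : Finset (Fin d)} (hA : Odd A.card) (hT : T.Nonempty) :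
    IsFace (P d) (simp' A T) ∧ vs (simp' A T) = simpV A T := by
  classical
  set c : Fin d → ℝ := fun i => (if i ∈ A then -1 else 1) * (if i ∈ T then 1 else 2) with hc
  have hcomp : Compat c A := by
    intro i
    constructor
    · intro h
      by_contra hi
      have : 0 ≤ c i := by
        simp only [hc, hi, if_false, one_mul]
        split_ifs <;> norm_num
      linarith
    · intro h hi
      have : c i ≤ 0 := by
        simp only [hc, hi, if_true]
        split_ifs <;> norm_num
      linarith
  have hne : ∀ i, c i ≠ 0 := by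
    intro i
    simp only [hc]
    split_ifs <;> norm_num
  have habs : ∀ i, |c i| = if i ∈ T then 1 else 2 := by
    intro i
    simp only [hc]
    split_ifs <;> norm_num
  have hfil : (univ.filter fun j => ∀ i, |c j| ≤ |c i|) = T := by
    ext j
    simp only [Finset.mem_filter, Finset.mem_univ, true_and, habs]
    constructor
    · intro h
      obtain ⟨t, ht⟩ := hT
      have := h t
      by_contra hj
      simp only [hj, ht, if_true, if_false] at this
      norm_num at this
    · intro h i
      simp only [h, if_true]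
      split_ifs <;> norm_num
  have hM : minV c = simpV A T := by
    rw [minV_nonzero hcomp hA hne (by omega), hfil]
  have hl : (fun i => lin c (EuclideanSpace.single i 1)) = c := funext (lin_single c)
  have hvs : vs (maxSet (P d) (lin c)) = simpV A T := by rw [vs_maxSet, hl, hM]
  have heq : maxSet (P d) (lin c) = simp' A T := by
    rw [conv_maxSet, hvs]; rfl
  rw [← heq]
  refine ⟨(isFace_iff _).2 ⟨⟨_, rfl⟩, ?_, ?_⟩, hvs⟩
  · obtain ⟨t, ht⟩ := hT
    have : A ∆ {t} ∈ vs (maxSet (P d) (lin c)) := by rw [hvs]; exact flip_mem_simpV ht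
    exact ⟨_, this.2⟩
  · intro hP
    obtain ⟨D, -, hD⟩ := Finset.exists_subset_card_eq (s := (univ : Finset (Fin d))) (n := 3)
      (by simpa using hd)
    have hev : Even (A ∆ D).card := even_flip hA (by rw [hD]; decide)
    have : A ∆ D ∈ vs (maxSet (P d) (lin c)) := ⟨hev, by rw [hP]; exact mem_P hev⟩
    rw [hvs] at this
    obtain ⟨j, -, hj⟩ := this
    rw [symm_symm] at hj
    rw [hj] at hD
    simp at hD

lemma demi_face {A S : Finset (Fin d)} (hA : Odd A.card) (hS : S.Nonempty) (hu : S ≠ univ) :
    IsFace (P d) (demi A S) ∧ vs (demi A S) = demiV A S := by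
  classical
  set c : Fin d → ℝ := fun i => if i ∈ S then 0 else (if i ∈ A then -1 else 1) with hc
  have hcomp : Compat c A := by
    intro i
    constructor
    · intro h
      by_contra hi
      have : 0 ≤ c i := by
        simp only [hc, hi, if_false]
        split_ifs <;> norm_num
      linarith
    · intro h hi
      have : c i ≤ 0 := by
        simp only [hc, hi, if_true]
        split_ifs <;> norm_num
      linarith
  obtain ⟨z, hz⟩ := hS
  have hz0 : c z = 0 := by simp [hc, hz]
  have hfil : (univ.filter fun i => c i = 0) = S := by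
    ext j
    simp only [Finset.mem_filter, Finset.mem_univ, true_and, hc]
    by_cases h : j ∈ S
    · simp [h]
    · simp only [h, if_false, iff_false]
      split_ifs <;> norm_num
  have hM : minV c = demiV A S := by
    rw [minV_zero hcomp hA hz0, hfil]
  have hl : (fun i => lin c (EuclideanSpace.single i 1)) = c := funext (lin_single c)
  have hvs : vs (maxSet (P d) (lin c)) = demiV A S := by rw [vs_maxSet, hl, hM]
  have heq : maxSet (P d) (lin c) = demi A S := by
    rw [conv_maxSet, hvs]; rfl
  rw [← heq]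
  refine ⟨(isFace_iff _).2 ⟨⟨_, rfl⟩, ?_, ?_⟩, hvs⟩
  · have : A ∆ {z} ∈ vs (maxSet (P d) (lin c)) := by rw [hvs]; exact flip_mem_demiV hz
    exact ⟨_, this.2⟩
  · intro hP
    obtain ⟨j, hj⟩ : ∃ j, j ∉ S := by
      by_contra hno
      push Not at hno
      exact hu (Finset.eq_univ_iff_forall.2 hno)
    have hev : Even (A ∆ {j}).card := even_flip hA (by simp)
    have : A ∆ {j} ∈ vs (maxSet (P d) (lin c)) := ⟨hev, by rw [hP]; exact mem_P hev⟩
    rw [hvs] at this
    have h2 := this.2
    rw [symm_symm] at h2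
    exact hj (h2 (by simp))

/-- The faces of the half cube. -/
lemma face_classify (hd : 3 ≤ d) {F : Set (E d)} (hF : IsFace (P d) F) :
    (∃ A T : Finset (Fin d), Odd A.card ∧ T.Nonempty ∧ F = simp' A T) ∨
    (∃ A S : Finset (Fin d), Odd A.card ∧ 3 ≤ S.card ∧ S ≠ univ ∧ F = demi A S) := by
  obtain ⟨⟨l, hl⟩, h2, h3⟩ := (isFace_iff F).1 hF
  have hvs : vs F = minV fun i => l (EuclideanSpace.single i 1) := by rw [hl, vs_maxSet]
  have hc := face_conv hF
  rcases classify (by omega) (fun i => l (EuclideanSpace.single i 1)) with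
    ⟨A, T, hA, hT, h⟩ | ⟨A, S, hA, hS, hu, h⟩ | h
  · exact Or.inl ⟨A, T, hA, hT, by rw [hc, hvs, h]; rfl⟩
  · exact Or.inr ⟨A, S, hA, hS, hu, by rw [hc, hvs, h]; rfl⟩
  · exfalso
    apply h3
    have hl0 : ∀ x, l x = 0 := by
      intro x
      rw [apply_eq]
      exact Finset.sum_eq_zero fun i _ => by rw [h i, mul_zero]
    rw [hl]
    ext x
    simp [maxSet, hl0]

end Pool.Agent.H9.DC
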