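import Mathlib
import Pool.Agent.H9.DC.Geom

set_option autoImplicit false

/-! The flags of the half cube. -/

namespace Pool.Agent.H9.DC

open Finset
open scoped symmDiff

variable {d : ℕ}

lemma simpV_eq (A T : Finset (Fin d)) : simpV A T = (fun j => A ∆ {j}) '' (T : Set (Fin d)) := by
  ext B
  constructor
  · rintro ⟨j, hj, h⟩
    refine ⟨j, hj, ?_⟩
    show A ∆ {j} = B
    rw [← h, symm_symm]
  · rintro ⟨j, hj, rfl⟩
    exact flip_mem_simpV hj

lemma flip_inj (A : Finset (Fin d)) : Function.Injective fun j : Fin d => A ∆ {j} := by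
  intro i j h
  have h' := congrArg (fun X => A ∆ X) h
  simp only [symm_symm] at h'
  simpa using h'

lemma simpV_ncard (A T : Finset (Fin d)) : (simpV A T).ncard = T.card := by
  rw [simpV_eq, Set.ncard_image_of_injective _ (flip_inj A), Set.ncard_coe_finset]

lemma flip_mem_simpV_iff {A T : Finset (Fin d)} {j : Fin d} : A ∆ {j} ∈ simpV A T ↔ j ∈ T := by
  constructor
  · rintro ⟨i, hi, h⟩
    rw [symm_symm] at h
    have : j = i := by simpa using h
    rw [this]; exact hi
  · exact flip_mem_simpV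

lemma flip_mem_demiV_iff {A S : Finset (Fin d)} {j : Fin d} : A ∆ {j} ∈ demiV A S ↔ j ∈ S := by
  constructor
  · rintro ⟨_, h⟩
    rw [symm_symm] at h
    exact h (by simp)
  · exact flip_mem_demiV

lemma two_in {A A' S' : Finset (Fin d)} {x y : Fin d} (hxy : x ≠ y) (hx : A ∆ {x} ∈ demiV A' S')
    (hy : A ∆ {y} ∈ demiV A' S') : x ∈ S' ∧ y ∈ S' ∧ A' ∆ A ⊆ S' := by
  have h1 : ∀ i, i ∉ S' → (i ∈ A' ↔ i ∈ A ∆ {x}) := by
    intro i hi
    have : i ∉ A' ∆ (A ∆ {x}) := fun h => hi (hx.2 h)
    rw [Finset.mem_symmDiff] at this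
    tauto
  have h2 : ∀ i, i ∉ S' → (i ∈ A' ↔ i ∈ A ∆ {y}) := by
    intro i hi
    have : i ∉ A' ∆ (A ∆ {y}) := fun h => hi (hy.2 h)
    rw [Finset.mem_symmDiff] at this
    tauto
  have hxS : x ∈ S' := by
    by_contra h
    have a1 := h1 x h
    have a2 := h2 x h
    simp only [Finset.mem_symmDiff, Finset.mem_singleton, hxy] at a1 a2
    tauto
  have hyS : y ∈ S' := by
    by_contra h
    have a1 := h1 y h
    have a2 := h2 y h
    simp only [Finset.mem_symmDiff, Finset.mem_singleton, hxy.symm] at a1 a2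
    tauto
  refine ⟨hxS, hyS, fun i hi => ?_⟩
  by_contra h
  have hix : i ≠ x := fun he => h (he ▸ hxS)
  have a1 := h1 i h
  rw [Finset.mem_symmDiff] at hi
  simp only [Finset.mem_symmDiff, Finset.mem_singleton, hix] at a1
  tauto

lemma K_or {K : Finset (Fin d)} {x j : Fin d} (h : K ∆ {x} = {j}) : K = ∅ ∨ x ∈ K := by
  by_cases hx : x ∈ K
  · exact Or.inr hx
  · left
    have h1 : x ∈ K ∆ {x} := by simp [Finset.mem_symmDiff, hx]
    rw [h, Finset.mem_singleton] at h1
    have h2 := congrArg (fun X => X ∆ {x}) h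
    simp only [symmDiff_symmDiff_cancel_right] at h2
    rw [h2, ← h1, symmDiff_self]
    rfl

lemma not_demi_simp {A A' T' : Finset (Fin d)} {x y z : Fin d} (hxy : x ≠ y) (hxz : x ≠ z)
    (hyz : y ≠ z) (h1 : A ∆ {x} ∈ simpV A' T') (h2 : A ∆ {y} ∈ simpV A' T')
    (h3 : A ∆ {z} ∈ simpV A' T') (h4 : A ∆ {x, y, z} ∈ simpV A' T') : False := by
  obtain ⟨j1, -, e1⟩ := h1
  obtain ⟨j2, -, e2⟩ := h2
  obtain ⟨j3, -, e3⟩ := h3
  obtain ⟨j4, -, e4⟩ := h4
  rw [← symmDiff_assoc] at e1 e2 e3 e4
  have hcard : ({x, y, z} : Finset (Fin d)).card = 3 := Finset.card_eq_three.2 ⟨x, y, z, hxy, hxz, hyz, rfl⟩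
  have hne : A' ∆ A ≠ ∅ := by
    intro h
    rw [h] at e4
    have : (∅ : Finset (Fin d)) ∆ {x, y, z} = {x, y, z} := bot_symmDiff _
    rw [this] at e4
    rw [e4] at hcard
    simp at hcard
  have hx := (K_or e1).resolve_left hne
  have hy := (K_or e2).resolve_left hne
  have hz := (K_or e3).resolve_left hne
  have hsub : ({x, y, z} : Finset (Fin d)) ⊆ A' ∆ A := by
    intro i hi
    simp only [Finset.mem_insert, Finset.mem_singleton] at hi
    rcases hi with rfl | rfl | rfl <;> assumption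
  have hle := Finset.card_le_card hsub
  have hK : A' ∆ A = {j1} ∆ {x} := by
    rw [← e1, symmDiff_symmDiff_cancel_right]
  have hK2 := card_symm ({j1} : Finset (Fin d)) {x}
  rw [← hK, Finset.card_singleton, Finset.card_singleton] at hK2
  omega

lemma demiV_congr {A A' S : Finset (Fin d)} (hA : Odd A.card) (hA' : Odd A'.card)
    (h : A' ∆ A ⊆ S) : demiV A S = demiV A' S := by
  have key : ∀ X Y : Finset (Fin d), Y ∆ X ⊆ S → Odd X.card → Odd Y.card →
      demiV X S ⊆ demiV Y S := by
    intro X Y hXY hX hY B hB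
    refine ⟨(odd_symm hY B).2 ((odd_symm hX B).1 hB.1), fun i hi => ?_⟩
    by_cases h1 : i ∈ Y ∆ X
    · exact hXY h1
    · apply hB.2
      rw [Finset.mem_symmDiff] at *
      tauto
  refine Set.Subset.antisymm (key A A' h hA hA') (key A' A ?_ hA' hA)
  rwa [symmDiff_comm]

lemma exists_two {S : Finset (Fin d)} (hS : 2 ≤ S.card) (x : Fin d) : ∃ y ∈ S, y ≠ x := by
  obtain ⟨y, hy, hne⟩ := Finset.exists_mem_ne (s := S) (by omega) x
  exact ⟨y, hy, hne⟩

lemma simpV_sub_demiV {A A' T S' : Finset (Fin d)} (hT : 2 ≤ T.card)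
    (h : simpV A T ⊆ demiV A' S') : T ⊆ S' ∧ A' ∆ A ⊆ S' := by
  have hT0 : T.Nonempty := Finset.card_pos.1 (by omega)
  refine ⟨fun x hx => ?_, ?_⟩
  · obtain ⟨y, hy, hne⟩ := exists_two hT x
    exact (two_in hne.symm (h (flip_mem_simpV hx)) (h (flip_mem_simpV hy))).1
  · obtain ⟨x, hx⟩ := hT0
    obtain ⟨y, hy, hne⟩ := exists_two hT x
    exact (two_in hne.symm (h (flip_mem_simpV hx)) (h (flip_mem_simpV hy))).2.2

lemma demiV_sub_demiV {A A' S S' : Finset (Fin d)} (hS : 2 ≤ S.card)
    (h : demiV A S ⊆ demiV A' S') : S ⊆ S' ∧ A' ∆ A ⊆ S' := by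
  refine simpV_sub_demiV hS (fun B hB => h ?_)
  obtain ⟨j, hj, hB⟩ := hB
  exact ⟨by rw [hB]; simp, by rw [hB]; simpa using hj⟩

lemma demiV_not_sub_simpV {A A' S T' : Finset (Fin d)} (hS : 3 ≤ S.card) :
    ¬ demiV A S ⊆ simpV A' T' := by
  intro h
  obtain ⟨U, hUS, hU⟩ := Finset.exists_subset_card_eq hS
  obtain ⟨x, y, z, hxy, hxz, hyz, rfl⟩ := Finset.card_eq_three.1 hU
  refine not_demi_simp (A := A) hxy hxz hyz (h (flip_mem_demiV (hUS (by simp))))
    (h (flip_mem_demiV (hUS (by simp)))) (h (flip_mem_demiV (hUS (by simp)))) (h ?_)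
  refine ⟨?_, ?_⟩
  · rw [symm_symm, hU]; decide
  · rw [symm_symm]; exact hUS

/-- the rank of a face -/
def Rk (F : Set (E d)) (r : ℕ) : Prop :=
  (∃ A T : Finset (Fin d), Odd A.card ∧ T.card = r + 1 ∧ F = simp' A T) ∨
  (∃ A S : Finset (Fin d), Odd A.card ∧ 3 ≤ r ∧ S.card = r ∧ S ≠ univ ∧ F = demi A S)

lemma exists_rk (hd : 3 ≤ d) {F : Set (E d)} (hF : IsFace (P d) F) : ∃ r, Rk F r ∧ r < d := by
  rcases face_classify hd hF with ⟨A, T, hA, hT, rfl⟩ | ⟨A, S, hA, hS, hu, rfl⟩
  · have h1 : 0 < T.card := hT.card_pos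
    have h2 : T.card ≤ d := by simpa using Finset.card_le_univ T
    exact ⟨T.card - 1, Or.inl ⟨A, T, hA, by omega, rfl⟩, by omega⟩
  · have h2 : S.card < d := by
      have hj : ∃ j, j ∉ S := by
        by_contra hno
        push Not at hno
        exact hu (Finset.eq_univ_iff_forall.2 hno)
      obtain ⟨j, hj⟩ := hj
      have := Finset.card_lt_univ_of_notMem hj
      simpa using this
    exact ⟨S.card, Or.inr ⟨A, S, hA, hS, rfl, hu, rfl⟩, h2⟩

lemma vs_simp (hd : 3 ≤ d) {A T : Finset (Fin d)} (hA : Odd A.card) (hT : 0 < T.card) :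
    vs (simp' A T) = simpV A T := (simp_face hd hA (Finset.card_pos.1 hT)).2

lemma vs_demi {A S : Finset (Fin d)} (hA : Odd A.card) (hS : 3 ≤ S.card) (hu : S ≠ univ) :
    vs (demi A S) = demiV A S := (demi_face hA (Finset.card_pos.1 (by omega)) hu).2

lemma rk_lt (hd : 3 ≤ d) {F G : Set (E d)} (hF : IsFace (P d) F) (hG : IsFace (P d) G)
    (hFG : F ⊂ G) {r s : ℕ} (hr : Rk F r) (hs : Rk G s) : r < s := by
  have hsub : vs F ⊆ vs G := (face_subset hF hG).1 hFG.1
  have hne : vs F ≠ vs G := fun h => hFG.ne (face_ext hF hG h)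
  rcases hr with ⟨A, T, hA, hT, rfl⟩ | ⟨A, S, hA, hr3, hS, hu, rfl⟩ <;>
    rcases hs with ⟨A', T', hA', hT', rfl⟩ | ⟨A', S', hA', hs3, hS', hu', rfl⟩
  · rw [vs_simp hd hA (by omega), vs_simp hd hA' (by omega)] at hsub hne
    have := Set.ncard_lt_ncard (hsub.ssubset_of_ne hne) (Set.toFinite _)
    rw [simpV_ncard, simpV_ncard] at this
    omega
  · rw [vs_simp hd hA (by omega), vs_demi hA' (by omega) hu'] at hsub
    by_cases h2 : 2 ≤ T.card
    · have := Finset.card_le_card (simpV_sub_demiV h2 hsub).1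
      omega
    · omega
  · rw [vs_demi hA (by omega) hu, vs_simp hd hA' (by omega)] at hsub
    exact absurd hsub (demiV_not_sub_simpV (by omega))
  · rw [vs_demi hA (by omega) hu, vs_demi hA' (by omega) hu'] at hsub hne
    obtain ⟨h1, h2⟩ := demiV_sub_demiV (by omega) hsub
    by_contra hcon
    have heq : S = S' := Finset.eq_of_subset_of_card_le h1 (by omega)
    apply hne
    rw [heq]
    exact demiV_congr hA hA' h2

/-- A strictly monotone map of `Fin n` to numbers below `n` is the inclusion. -/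
lemma strictMono_eq {n : ℕ} {r : Fin n → ℕ} (h : StrictMono r) (hr : ∀ i, r i < n) (i : Fin n) :
    r i = i := by
  let g : Fin n → Fin n := fun i => ⟨r i, hr i⟩
  have hg : StrictMono g := fun a b hab => h hab
  have hsurj : Function.Surjective g := Finite.injective_iff_surjective.1 hg.injective
  have : g = id := (StrictMono.range_inj hg strictMono_id).1 (by
    rw [hsurj.range_eq, Set.range_id])
  have h2 := congrFun this i
  exact congrArg Fin.val h2

/-- The structure of the flags. -/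
lemma flag_structure (hd : 3 ≤ d) (f : Fin d → Set (E d)) (hf : ∀ i, IsFace (P d) (f i))
    (hm : StrictMono f) :
    ∃ (A : Finset (Fin d)) (U : ℕ → Finset (Fin d)) (t : ℕ), Odd A.card ∧ 3 ≤ t ∧ t ≤ d ∧
      (∀ m, m ≤ d → (U m).card = m) ∧ (∀ m, m < d → U m ⊆ U (m + 1)) ∧
      ∀ i : Fin d, f i = if i.val < t then simp' A (U (i.val + 1)) else demi A (U i.val) := by
  classical
  choose r hr hrd using fun i => exists_rk hd (hf i)
  have hrm : StrictMono r := fun i j hij => rk_lt hd (hf i) (hf j) (hm hij) (hr i) (hr j)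
  have hri := strictMono_eq hrm hrd
  have hR : ∀ i : Fin d, Rk (f i) i.val := fun i => hri i ▸ hr i
  have hmono : ∀ i j : Fin d, i ≤ j → vs (f i) ⊆ vs (f j) := fun i j hij =>
    (face_subset (hf i) (hf j)).1 (hm.monotone hij)
  set isS : Fin d → Prop := fun i =>
    ∃ A T : Finset (Fin d), Odd A.card ∧ T.card = i.val + 1 ∧ f i = simp' A T with hisS
  have hex : ∃ n, n = d ∨ ∃ h : n < d, ¬ isS ⟨n, h⟩ := ⟨d, Or.inl rfl⟩
  set t := Nat.find hex with ht
  have htd : t ≤ d := Nat.find_min' hex (Or.inl rfl)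
  have hlt : ∀ i : Fin d, i.val < t → isS i := by
    intro i hi
    have := Nat.find_min hex hi
    push Not at this
    exact this.2 i.isLt
  have hge : ∀ i : Fin d, t ≤ i.val → ∃ A S : Finset (Fin d), Odd A.card ∧ 3 ≤ i.val ∧
      S.card = i.val ∧ S ≠ univ ∧ f i = demi A S := by
    intro i hi
    rcases hR i with h | h
    · exfalso
      obtain ⟨A, T, hA, hT, hfi⟩ := h
      have htd' : t < d := lt_of_le_of_lt hi i.isLt
      rcases Nat.find_spec hex with h | ⟨h, hn⟩
      · exact absurd h htd'.ne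
      · rcases hR ⟨t, htd'⟩ with h' | ⟨A', S', hA', h3, hS', hu', hft⟩
        · exact hn h'
        · have hsub := hmono ⟨t, htd'⟩ i hi
          rw [hft, hfi, vs_demi hA' (by omega) hu', vs_simp hd hA (by omega)] at hsub
          exact demiV_not_sub_simpV (by omega) hsub
    · exact h
  have ht3 : 3 ≤ t := by
    rcases Nat.find_spec hex with h | ⟨h, hn⟩
    · rw [ht, h]; exact hd
    · by_contra hcon
      rcases hR ⟨t, h⟩ with h' | ⟨_, _, _, h3, _⟩
      · exact hn h'
      · exact hcon h3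
  have ht1 : t - 1 < d := by omega
  obtain ⟨A, T, hA, hT, hfT⟩ := hlt ⟨t - 1, ht1⟩ (show t - 1 < t by omega)
  have hTt : T.card = t := by rw [hT]; show t - 1 + 1 = t; omega
  have hvT : vs (f ⟨t - 1, ht1⟩) = simpV A T := by rw [hfT, vs_simp hd hA (by omega)]
  set W : Fin d → Finset (Fin d) := fun i => univ.filter fun j => A ∆ {j} ∈ vs (f i) with hW
  have hWlt : ∀ i : Fin d, i.val < t → f i = simp' A (W i) ∧ (W i).card = i.val + 1 := by
    intro i hi
    obtain ⟨A', T', hA', hT', hfi⟩ := hlt i hi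
    have hsub := hmono i ⟨t - 1, ht1⟩ (show i.val ≤ t - 1 by omega)
    rw [hvT] at hsub
    have hv : vs (f i) = simpV A (W i) := by
      ext B
      constructor
      · intro hB
        obtain ⟨j, hj, hAB⟩ := hsub hB
        have hBj : B = A ∆ {j} := by rw [← hAB, symm_symm]
        exact ⟨j, by simp only [hW, Finset.mem_filter, Finset.mem_univ, true_and]; rw [← hBj]; exact hB, hAB⟩
      · rintro ⟨j, hj, hAB⟩
        have hBj : B = A ∆ {j} := by rw [← hAB, symm_symm]
        simp only [hW, Finset.mem_filter, Finset.mem_univ, true_and] at hj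
        rw [hBj]; exact hj
    refine ⟨?_, ?_⟩
    · rw [face_conv (hf i), hv]; rfl
    · rw [← simpV_ncard A (W i), ← hv, hfi, vs_simp hd hA' (by omega), simpV_ncard, hT']
  have hWge : ∀ i : Fin d, t ≤ i.val → f i = demi A (W i) ∧ (W i).card = i.val := by
    intro i hi
    obtain ⟨A', S', hA', h3, hS', hu', hfi⟩ := hge i hi
    have hsub := hmono ⟨t - 1, ht1⟩ i (show t - 1 ≤ i.val by omega)
    rw [hvT, hfi, vs_demi hA' (by omega) hu'] at hsub
    obtain ⟨h1, h2⟩ := simpV_sub_demiV (by omega) hsub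
    have hc := demiV_congr hA hA' h2
    have hWS : W i = S' := by
      ext j
      simp only [hW, Finset.mem_filter, Finset.mem_univ, true_and]
      rw [hfi, vs_demi hA' (by omega) hu', ← hc, flip_mem_demiV_iff]
    rw [hWS]
    refine ⟨?_, hS'⟩
    rw [hfi]
    show convexHull ℝ (vec '' demiV A' S') = convexHull ℝ (vec '' demiV A S')
    rw [hc]
  have hWm : ∀ i j : Fin d, i ≤ j → W i ⊆ W j := by
    intro i j hij x hx
    simp only [hW, Finset.mem_filter, Finset.mem_univ, true_and] at hx ⊢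
    exact hmono i j hij hx
  set W' : ℕ → Finset (Fin d) := fun n => if h : n < d then W ⟨n, h⟩ else univ with hW'
  have hW'm : ∀ m n, m ≤ n → W' m ⊆ W' n := by
    intro m n hmn
    by_cases hn : n < d
    · have hm' : m < d := by omega
      simp only [hW', hn, hm', dif_pos]
      exact hWm _ _ hmn
    · simp only [hW', hn, dif_neg, not_false_iff]
      exact Finset.subset_univ _
  have hc1 : ∀ n, n < t → (W' n).card = n + 1 := by
    intro n hn
    have : n < d := by omega
    simp only [hW', this, dif_pos]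
    exact (hWlt ⟨n, this⟩ hn).2
  have hc2 : ∀ n, t ≤ n → n ≤ d → (W' n).card = n := by
    intro n hn hnd
    by_cases h : n < d
    · simp only [hW', h, dif_pos]
      exact (hWge ⟨n, h⟩ hn).2
    · have : n = d := by omega
      simp only [hW', h, dif_neg, not_false_iff]
      simp [this]
  refine ⟨A, fun m => if m = 0 then ∅ else if m ≤ t then W' (m - 1) else W' m, t, hA, ht3, htd,
    ?_, ?_, ?_⟩
  · intro m hmd
    by_cases h0 : m = 0
    · simp [h0]
    · by_cases h1 : m ≤ t
      · simp only [h0, h1, if_true, if_false]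
        rw [hc1 _ (by omega)]; omega
      · simp only [h0, h1, if_false]
        exact hc2 _ (by omega) hmd
  · intro m hmd
    by_cases h0 : m = 0
    · simp [h0]
    · by_cases h1 : m + 1 ≤ t
      · have h1' : m ≤ t := by omega
        simp only [h0, h1, h1', if_true, if_false, Nat.succ_ne_zero]
        exact hW'm _ _ (by omega)
      · by_cases h2 : m ≤ t
        · simp only [h0, h1, h2, if_true, if_false, Nat.succ_ne_zero]
          exact hW'm _ _ (by omega)
        · simp only [h0, h1, h2, if_false, Nat.succ_ne_zero]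
          exact hW'm _ _ (by omega)
  · intro i
    by_cases hi : i.val < t
    · have h1 : i.val + 1 ≤ t := by omega
      simp only [hi, h1, if_true, if_false, Nat.succ_ne_zero, Nat.add_sub_cancel]
      simp only [hW', i.isLt, dif_pos]
      exact (hWlt i hi).1
    · have h0 : i.val ≠ 0 := by omega
      have hWi : W' i.val = W i := by simp only [hW', i.isLt, dif_pos]
      simp only [hi, h0, if_false]
      by_cases h1 : i.val ≤ t
      · have hit : i.val = t := by omega
        simp only [h1, if_true]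
        have hsub := hW'm (i.val - 1) i.val (by omega)
        have heq : W' (i.val - 1) = W' i.val := by
          refine Finset.eq_of_subset_of_card_le hsub ?_
          rw [hc1 (i.val - 1) (by omega), hc2 i.val (by omega) (by omega)]; omega
        rw [heq, hWi]
        exact (hWge i (by omega)).1
      · simp only [h1, if_false]
        rw [hWi]
        exact (hWge i (by omega)).1

end Pool.Agent.H9.DC
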