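import Mathlib
import Pool.Agent.H9.DC.Geom

set_option autoImplicit false

/-! Symmetries of the half cube. -/

namespace Pool.Agent.H9.DC

open Finset
open scoped symmDiff

variable {d : ℕ}

/-- the action of a signed permutation on finite sets -/
def act (σ : Equiv.Perm (Fin d)) (C B : Finset (Fin d)) : Finset (Fin d) := (B.map σ.toEmbedding) ∆ C

/-- signed permutation of the coordinates -/
noncomputable def sg (σ : Equiv.Perm (Fin d)) (C : Finset (Fin d)) : E d ≃ₗᵢ[ℝ] E d :=
  (LinearIsometryEquiv.piLpCongrLeft 2 ℝ ℝ σ).trans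
    (LinearIsometryEquiv.piLpCongrRight 2 fun i =>
      if i ∈ C then LinearIsometryEquiv.neg ℝ else LinearIsometryEquiv.refl ℝ ℝ)

lemma sg_apply (σ : Equiv.Perm (Fin d)) (C : Finset (Fin d)) (x : E d) (i : Fin d) :
    sg σ C x i = (if i ∈ C then -1 else 1) * x (σ.symm i) := by
  simp only [sg, LinearIsometryEquiv.trans_apply, LinearIsometryEquiv.piLpCongrRight_apply]
  by_cases h : i ∈ C <;> simp [h, LinearIsometryEquiv.piLpCongrLeft_apply, Equiv.piCongrLeft']

lemma sg_vec (σ : Equiv.Perm (Fin d)) (C B : Finset (Fin d)) : sg σ C (vec B) = vec (act σ C B) := by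
  ext i
  rw [sg_apply, vec_apply, vec_apply]
  have h : i ∈ B.map σ.toEmbedding ↔ σ.symm i ∈ B := by
    rw [Finset.mem_map_equiv]
  simp only [act, Finset.mem_symmDiff, h]
  by_cases h1 : σ.symm i ∈ B <;> by_cases h2 : i ∈ C <;> simp [h1, h2]

lemma sg_image (σ : Equiv.Perm (Fin d)) (C : Finset (Fin d)) (X : Set (Finset (Fin d))) :
    sg σ C '' convexHull ℝ (vec '' X) = convexHull ℝ (vec '' (act σ C '' X)) := by
  have h := (sg σ C).toLinearEquiv.toLinearMap.image_convexHull (vec '' X)
  have h2 : ((sg σ C).toLinearEquiv.toLinearMap : E d → E d) = sg σ C := rfl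
  rw [h2] at h
  rw [h, Set.image_image, Set.image_image]
  simp only [sg_vec]

lemma map_symm (σ : Equiv.Perm (Fin d)) (A B : Finset (Fin d)) :
    (A ∆ B).map σ.toEmbedding = (A.map σ.toEmbedding) ∆ (B.map σ.toEmbedding) := by
  ext i
  simp only [Finset.mem_map_equiv, Finset.mem_symmDiff]

lemma act_symm (σ : Equiv.Perm (Fin d)) (C A B : Finset (Fin d)) :
    act σ C A ∆ act σ C B = (A ∆ B).map σ.toEmbedding := by
  rw [map_symm]
  ext i
  simp only [act, Finset.mem_symmDiff]
  tauto

lemma act_surj (σ : Equiv.Perm (Fin d)) (C : Finset (Fin d)) : Function.Surjective (act σ C) := by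
  intro B
  refine ⟨(B ∆ C).map σ.symm.toEmbedding, ?_⟩
  ext i
  simp only [act, Finset.mem_symmDiff, Finset.mem_map_equiv, Equiv.symm_symm, Equiv.apply_symm_apply]
  tauto

lemma act_simpV (σ : Equiv.Perm (Fin d)) (C A T : Finset (Fin d)) :
    act σ C '' simpV A T = simpV (act σ C A) (T.map σ.toEmbedding) := by
  ext B
  constructor
  · rintro ⟨B, ⟨j, hj, h⟩, rfl⟩
    refine ⟨σ j, by simpa using hj, ?_⟩
    rw [act_symm, h]
    simp
  · rintro ⟨j, hj, h⟩
    obtain ⟨B, rfl⟩ := act_surj σ C B
    refine ⟨B, ⟨σ.symm j, by rwa [Finset.mem_map_equiv] at hj, ?_⟩, rfl⟩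
    rw [act_symm] at h
    ext i
    have h2 := Finset.ext_iff.1 h (σ i)
    rw [Finset.mem_map_equiv, Equiv.symm_apply_apply] at h2
    rw [h2, Finset.mem_singleton, Finset.mem_singleton, Equiv.eq_symm_apply]

lemma act_demiV (σ : Equiv.Perm (Fin d)) (C A S : Finset (Fin d)) :
    act σ C '' demiV A S = demiV (act σ C A) (S.map σ.toEmbedding) := by
  ext B
  constructor
  · rintro ⟨B, ⟨h1, h2⟩, rfl⟩
    refine ⟨?_, ?_⟩
    · rw [act_symm, Finset.card_map]; exact h1
    · rw [act_symm]; exact Finset.map_subset_map.2 h2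
  · rintro ⟨h1, h2⟩
    obtain ⟨B, rfl⟩ := act_surj σ C B
    rw [act_symm] at h1 h2
    refine ⟨B, ⟨by rwa [Finset.card_map] at h1, Finset.map_subset_map.1 h2⟩, rfl⟩

lemma sg_simp (σ : Equiv.Perm (Fin d)) (C A T : Finset (Fin d)) :
    sg σ C '' simp' A T = simp' (act σ C A) (T.map σ.toEmbedding) := by
  rw [simp', sg_image, act_simpV]; rfl

lemma sg_demi (σ : Equiv.Perm (Fin d)) (C A S : Finset (Fin d)) :
    sg σ C '' demi A S = demi (act σ C A) (S.map σ.toEmbedding) := by
  rw [demi, sg_image, act_demiV]; rfl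

lemma sg_P (σ : Equiv.Perm (Fin d)) {C : Finset (Fin d)} (hC : Even C.card) :
    sg σ C '' P d = P d := by
  rw [P, sg_image]
  congr 2
  ext B
  constructor
  · rintro ⟨B, hB, rfl⟩
    show Even (act σ C B).card
    rw [act, symmDiff_comm, odd_symm' hC, Finset.card_map]
    exact hB
  · intro hB
    obtain ⟨B, rfl⟩ := act_surj σ C B
    refine ⟨B, ?_, rfl⟩
    have hB' : Even (act σ C B).card := hB
    rw [act, symmDiff_comm, odd_symm' hC, Finset.card_map] at hB'
    exact hB'

/-- the first `m` coordinates -/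
def first (d m : ℕ) : Finset (Fin d) := univ.filter fun i => i.val < m

/-- A complete chain of finite sets is the image of the standard one. -/
lemma exists_perm (U : ℕ → Finset (Fin d)) (hc : ∀ m, m ≤ d → (U m).card = m)
    (hm : ∀ m, m < d → U m ⊆ U (m + 1)) :
    ∃ σ : Equiv.Perm (Fin d), ∀ m, m ≤ d → U m = (first d m).map σ.toEmbedding := by
  classical
  have hmono : ∀ m n, m ≤ n → n ≤ d → U m ⊆ U n := by
    intro m n hmn
    induction n, hmn using Nat.le_induction with
    | base => intro _; exact subset_rfl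
    | succ n hmn ih => intro hn; exact (ih (by omega)).trans (hm n (by omega))
  have hex : ∀ m : Fin d, ∃ x, x ∈ U (m.val + 1) ∧ x ∉ U m.val := by
    intro m
    have h1 := hc m.val (by omega)
    have h2 := hc (m.val + 1) (by omega)
    exact Finset.exists_mem_notMem_of_card_lt_card (by omega)
  choose a ha1 ha2 using hex
  have hinj : Function.Injective a := by
    have key : ∀ m n : Fin d, m < n → a m ≠ a n := by
      intro m n hmn h
      have h1 : a m ∈ U n.val := hmono (m.val + 1) n.val hmn (by omega) (ha1 m)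
      rw [h] at h1
      exact ha2 n h1
    intro m n h
    rcases lt_trichotomy m n with h' | h' | h'
    · exact absurd h (key m n h')
    · exact h'
    · exact absurd h.symm (key n m h')
  let σ : Equiv.Perm (Fin d) := Equiv.ofBijective a (Finite.injective_iff_bijective.1 hinj)
  have hfirst : ∀ m, m ≤ d → (first d m).card = m := by
    intro m hmd
    have : first d m = (univ : Finset (Fin m)).map (Fin.castLEEmb hmd) := by
      ext i
      simp only [first, Finset.mem_filter, Finset.mem_univ, true_and, Finset.mem_map]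
      constructor
      · intro h
        exact ⟨⟨i.val, h⟩, rfl⟩
      · rintro ⟨j, rfl⟩
        exact j.isLt
    rw [this]
    simp
  refine ⟨σ, fun m hmd => ?_⟩
  symm
  refine Finset.eq_of_subset_of_card_le ?_ ?_
  · intro x hx
    rw [Finset.mem_map] at hx
    obtain ⟨i, hi, rfl⟩ := hx
    have hi' : i.val < m := by simpa [first] using hi
    exact hmono (i.val + 1) m hi' hmd (ha1 i)
  · rw [Finset.card_map, hfirst m hmd, hc m hmd]

lemma first_card (d m : ℕ) (hmd : m ≤ d) : (first d m).card = m := by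
  have : first d m = (univ : Finset (Fin m)).map (Fin.castLEEmb hmd) := by
    ext i
    simp only [first, Finset.mem_filter, Finset.mem_univ, true_and, Finset.mem_map]
    constructor
    · intro h
      exact ⟨⟨i.val, h⟩, rfl⟩
    · rintro ⟨j, rfl⟩
      exact j.isLt
  rw [this]
  simp

end Pool.Agent.H9.DC
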