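import Mathlib
import Pool.Agent.H9.DC.Flags
import Pool.Agent.H9.DC.Sym

set_option autoImplicit false

/-! The number of flag orbits of the half cube. -/

namespace Pool.Agent.H9.DC

open Finset
open scoped symmDiff

variable {d : ℕ}

/-- A flag of `Q ⊆ ℝ^d`: a strictly increasing chain of `d` nonempty proper faces of `Q`. -/
structure PFlag (Q : Set (E d)) where
  face : Fin d → Set (E d)
  isFace : ∀ i, IsFace Q (face i)
  mono : StrictMono face

/-- Two flags are equivalent if an isometry of `ℝ^d` that maps `Q` onto `Q` maps one to the other. -/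
def geomSetoid (Q : Set (E d)) : Setoid (PFlag Q) where
  r f g := ∃ e : E d ≃ᵃⁱ[ℝ] E d, e '' Q = Q ∧ ∀ i, e '' f.face i = g.face i
  iseqv := by
    refine ⟨fun f => ⟨AffineIsometryEquiv.refl ℝ _, by simp, fun i => by simp⟩, ?_, ?_⟩
    · rintro f g ⟨e, h1, h2⟩
      refine ⟨e.symm, ?_, fun i => ?_⟩
      · conv_lhs => rw [← h1]
        rw [Set.image_image]
        simp
      · rw [← h2 i, Set.image_image]
        simp
    · rintro f g h ⟨e, h1, h2⟩ ⟨e', h1', h2'⟩
      refine ⟨e.trans e', ?_, fun i => ?_⟩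
      · rw [AffineIsometryEquiv.coe_trans, Set.image_comp, h1, h1']
      · rw [AffineIsometryEquiv.coe_trans, Set.image_comp, h2, h2']

/-- Two flags are combinatorially equivalent if an automorphism of the ordered set of the nonempty
proper faces maps one to the other. -/
def combSetoid (Q : Set (E d)) : Setoid (PFlag Q) where
  r f g := ∃ φ : {F : Set (E d) // IsFace Q F} ≃o {F : Set (E d) // IsFace Q F},
    ∀ i, φ ⟨f.face i, f.isFace i⟩ = ⟨g.face i, g.isFace i⟩
  iseqv := by
    refine ⟨fun f => ⟨OrderIso.refl _, fun i => rfl⟩, ?_, ?_⟩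
    · rintro f g ⟨e, h⟩
      exact ⟨e.symm, fun i => by rw [← h i, OrderIso.symm_apply_apply]⟩
    · rintro f g h ⟨e, h1⟩ ⟨e', h2⟩
      exact ⟨e.trans e', fun i => by rw [OrderIso.trans_apply, h1, h2]⟩

/-- number of flag orbits under isometries -/
noncomputable def geomOrbits (Q : Set (E d)) : ℕ := Nat.card (Quotient (geomSetoid Q))

/-- number of flag orbits under combinatorial automorphisms -/
noncomputable def combOrbits (Q : Set (E d)) : ℕ := Nat.card (Quotient (combSetoid Q))

/-- convex `d`-polytopes -/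
def IsPolytope (Q : Set (E d)) : Prop :=
  (∃ V : Set (E d), V.Finite ∧ Q = convexHull ℝ V) ∧ (interior Q).Nonempty

lemma isFace_image {Q F : Set (E d)} (e : E d ≃ᵃⁱ[ℝ] E d) (he : e '' Q = Q) (hF : IsFace Q F) :
    IsFace Q (e '' F) := by
  obtain ⟨h1, h2, h3⟩ := hF
  obtain ⟨l, hl⟩ := h1 h2
  refine ⟨fun _ => ?_, h2.image _, ?_⟩
  · let l' : StrongDual ℝ (E d) :=
      l.comp (e.symm.linearIsometryEquiv.toContinuousLinearEquiv : E d →L[ℝ] E d)
    have key : ∀ x y : E d, l' (e x) - l' (e y) = l x - l y := by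
      intro x y
      rw [← map_sub l', ← map_sub l]
      have h5 := e.symm.map_vsub (e x) (e y)
      rw [AffineIsometryEquiv.symm_apply_apply, AffineIsometryEquiv.symm_apply_apply,
        vsub_eq_sub, vsub_eq_sub] at h5
      show l (e.symm.linearIsometryEquiv (e x - e y)) = l (x - y)
      rw [h5]
    refine ⟨l', ?_⟩
    conv_rhs => rw [← he]
    rw [hl]
    ext z
    constructor
    · rintro ⟨x, ⟨hx, hm⟩, rfl⟩
      refine ⟨⟨x, hx, rfl⟩, ?_⟩
      rintro _ ⟨y, hy, rfl⟩
      have := hm y hy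
      have := key x y
      linarith
    · rintro ⟨⟨x, hx, rfl⟩, hm⟩
      refine ⟨x, ⟨hx, fun y hy => ?_⟩, rfl⟩
      have := hm _ ⟨y, hy, rfl⟩
      have := key x y
      linarith
  · intro h
    apply h3
    apply e.injective.image_injective
    rw [h, he]

lemma geom_comb {Q : Set (E d)} {f g : PFlag Q} (h : (geomSetoid Q) f g) : (combSetoid Q) f g := by
  obtain ⟨e, he, hi⟩ := h
  have he' : e.symm '' Q = Q := by
    conv_lhs => rw [← he]
    rw [Set.image_image]
    simp
  refine ⟨{ toFun := fun F => ⟨e '' F.1, isFace_image e he F.2⟩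
            invFun := fun F => ⟨e.symm '' F.1, isFace_image e.symm he' F.2⟩
            left_inv := fun F => Subtype.ext (by simp [Set.image_image])
            right_inv := fun F => Subtype.ext (by simp [Set.image_image])
            map_rel_iff' := ?_ }, fun i => Subtype.ext (hi i)⟩
  intro F G
  show e '' F.1 ⊆ e '' G.1 ↔ F.1 ⊆ G.1
  exact Set.image_subset_image_iff e.injective

section order

variable {α : Type*} [PartialOrder α]

/-- any two minimal elements below `G` are the only ones below some element -/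
def Clq (G : α) : Prop := ∀ m m', IsMin m → IsMin m' → m ≤ G → m' ≤ G →
  ∃ H, m ≤ H ∧ m' ≤ H ∧ ∀ n, IsMin n → n ≤ H → n = m ∨ n = m'

/-- below a maximal element with this property -/
def BP (F : α) : Prop := ∃ G, F ≤ G ∧ IsMax G ∧ Clq G

lemma Clq_iso (φ : α ≃o α) {G : α} (h : Clq G) : Clq (φ G) := by
  intro m m' hm hm' hmG hmG'
  have a1 : IsMin (φ.symm m) := by rwa [OrderIso.isMin_apply]
  have a2 : IsMin (φ.symm m') := by rwa [OrderIso.isMin_apply]
  obtain ⟨H, h1, h2, h3⟩ := h (φ.symm m) (φ.symm m') a1 a2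
    ((OrderIso.symm_apply_le φ).2 hmG) ((OrderIso.symm_apply_le φ).2 hmG')
  refine ⟨φ H, (OrderIso.symm_apply_le φ).1 h1, (OrderIso.symm_apply_le φ).1 h2, ?_⟩
  intro n hn hnH
  rcases h3 (φ.symm n) (by rwa [OrderIso.isMin_apply]) ((OrderIso.symm_apply_le φ).2 hnH) with h | h
  · exact Or.inl (φ.symm.injective h)
  · exact Or.inr (φ.symm.injective h)

lemma BP_iso (φ : α ≃o α) {F : α} (h : BP F) : BP (φ F) := by
  obtain ⟨G, h1, h2, h3⟩ := h
  exact ⟨φ G, φ.monotone h1, by rwa [OrderIso.isMax_apply], Clq_iso φ h3⟩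

lemma BP_iso_iff (φ : α ≃o α) {F : α} : BP (φ F) ↔ BP F := by
  constructor
  · intro h
    have := BP_iso φ.symm h
    rwa [OrderIso.symm_apply_apply] at this
  · exact BP_iso φ

end order

lemma cancel_symm (X Y Z W : Finset (Fin d)) : (X ∆ (Y ∆ Z)) ∆ (X ∆ (Y ∆ W)) = Z ∆ W := by
  rw [← symmDiff_assoc X Y Z, ← symmDiff_assoc X Y W]
  generalize X ∆ Y = V
  rw [symmDiff_comm V Z, symmDiff_assoc, symm_symm]

lemma third_sub {A' A'' R S'' : Finset (Fin d)} {x y : Fin d} (hxR : x ∉ R) (hy : y ∈ R)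
    (h1 : A'' ∆ (A' ∆ {x}) ⊆ S'') (h2 : A'' ∆ (A' ∆ R) ⊆ S'') : A'' ∆ (A' ∆ {y}) ⊆ S'' := by
  intro i hi
  by_contra hiS
  have a1 : i ∉ A'' ∆ (A' ∆ {x}) := fun h => hiS (h1 h)
  have a2 : i ∉ A'' ∆ (A' ∆ R) := fun h => hiS (h2 h)
  simp only [Finset.mem_symmDiff, Finset.mem_singleton] at hi a1 a2
  by_cases hix : i = x
  · subst hix
    by_cases b1 : i ∈ A'' <;> by_cases b2 : i ∈ A' <;> simp [b1, b2, hxR] at a1 a2
  · by_cases hiR : i ∈ R
    · by_cases b1 : i ∈ A'' <;> by_cases b2 : i ∈ A' <;> simp [b1, b2, hix, hiR] at a1 a2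
    · have hiy : i ≠ y := fun h => hiR (h ▸ hy)
      by_cases b1 : i ∈ A'' <;> by_cases b2 : i ∈ A' <;> simp [b1, b2, hix, hiy] at a1 hi

/-- the faces of the half cube -/
abbrev Fc (d : ℕ) := {F : Set (E d) // IsFace (P d) F}

lemma pt_face (hd : 3 ≤ d) {B : Finset (Fin d)} (hB : Even B.card) : IsFace (P d) {vec B} := by
  have hA : Odd (B ∆ {(⟨0, by omega⟩ : Fin d)}).card := by
    have h := card_symm B {(⟨0, by omega⟩ : Fin d)}
    rw [Finset.card_singleton] at h
    rw [Nat.even_iff] at hB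
    rw [Nat.odd_iff]
    omega
  have h := (simp_face hd hA (T := {(⟨0, by omega⟩ : Fin d)}) (by simp)).1
  have h2 : simpV (B ∆ {(⟨0, by omega⟩ : Fin d)}) {(⟨0, by omega⟩ : Fin d)} = {B} := by
    rw [simpV_eq]
    simp
  rw [simp', h2, Set.image_singleton, convexHull_singleton] at h
  exact h

lemma isMin_iff (hd : 3 ≤ d) (F : Fc d) :
    IsMin F ↔ ∃ B : Finset (Fin d), Even B.card ∧ F.1 = {vec B} := by
  constructor
  · intro h
    have h1 := F.2.2.1
    rw [face_conv F.2, convexHull_nonempty_iff] at h1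
    obtain ⟨_, B, ⟨hB, hBF⟩, rfl⟩ := h1
    have h2 : (⟨{vec B}, pt_face hd hB⟩ : Fc d) ≤ F := by
      show ({vec B} : Set (E d)) ⊆ F.1
      simpa using hBF
    have h3 := h h2
    exact ⟨B, hB, Set.Subset.antisymm h3 h2⟩
  · rintro ⟨B, hB, hF⟩ G hG
    have hG' : G.1 ⊆ F.1 := hG
    rw [hF] at hG'
    show F.1 ⊆ G.1
    rw [hF]
    rcases Set.subset_singleton_iff_eq.1 hG' with h | h
    · exact absurd G.2.2.1 (by rw [h]; simp)
    · rw [h]

lemma demi_ne_simp (hd : 3 ≤ d) {A S A' T' : Finset (Fin d)} (hA : Odd A.card) (hS : 3 ≤ S.card)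
    (hu : S ≠ univ) (hA' : Odd A'.card) (hT' : T'.Nonempty) : ¬ demi A S ⊆ simp' A' T' := by
  intro h
  have h1 := (face_subset (demi_face hA (Finset.card_pos.1 (by omega)) hu).1
    (simp_face hd hA' hT').1).1 h
  rw [vs_demi hA hS hu, vs_simp hd hA' hT'.card_pos] at h1
  exact demiV_not_sub_simpV hS h1

lemma ne_univ_of_card {S : Finset (Fin d)} (h : S.card < d) : S ≠ univ := by
  rintro rfl
  simp at h

lemma BP_iff (hd : 5 ≤ d) (F : Fc d) :
    BP F ↔ ∃ A T : Finset (Fin d), Odd A.card ∧ T.Nonempty ∧ F.1 = simp' A T := by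
  have hd3 : 3 ≤ d := by omega
  constructor
  · rintro ⟨G, hFG, hmax, hclq⟩
    rcases face_classify hd3 F.2 with h | ⟨A, S, hA, hS, hu, hF⟩
    · exact h
    exfalso
    have hFG' : F.1 ⊆ G.1 := hFG
    rcases face_classify hd3 G.2 with ⟨A', T', hA', hT', hG⟩ | ⟨A', S', hA', hS', hu', hG⟩
    · rw [hF, hG] at hFG'
      exact demi_ne_simp hd3 hA hS hu hA' hT' hFG'
    have hvG : vs G.1 = demiV A' S' := by rw [hG, vs_demi hA' hS' hu']
    have h4 : 4 ≤ S'.card := by
      by_contra hcon
      obtain ⟨j, hj⟩ : ∃ j, j ∉ S' := by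
        by_contra hno
        push Not at hno
        exact hu' (Finset.eq_univ_iff_forall.2 hno)
      have hc : (insert j S').card = S'.card + 1 := Finset.card_insert_of_notMem hj
      have hu2 : insert j S' ≠ univ := ne_univ_of_card (by omega)
      have hf2 := demi_face hA' (S := insert j S') (by simp) hu2
      have hle : G ≤ (⟨demi A' (insert j S'), hf2.1⟩ : Fc d) := by
        show G.1 ⊆ demi A' (insert j S')
        rw [hG]
        refine convexHull_mono (Set.image_mono ?_)
        rintro B ⟨h1, h2⟩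
        exact ⟨h1, h2.trans (Finset.subset_insert _ _)⟩
      have hge := (face_subset hf2.1 G.2).1 (hmax hle)
      rw [hf2.2, hvG] at hge
      have := (demiV_sub_demiV (by omega) hge).1 (Finset.mem_insert_self j S')
      exact hj this
    obtain ⟨Q4, hQ4, hQ4c⟩ := Finset.exists_subset_card_eq h4
    obtain ⟨x, hx⟩ : Q4.Nonempty := Finset.card_pos.1 (by omega)
    set R := Q4.erase x with hR
    have hRc : R.card = 3 := by rw [hR, Finset.card_erase_of_mem hx, hQ4c]
    have hxR : x ∉ R := by simp [hR]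
    have hRS : R ⊆ S' := (Finset.erase_subset _ _).trans hQ4
    have hRodd : Odd R.card := by rw [hRc]; decide
    have hB : Even (A' ∆ {x}).card := even_flip hA' (by simp)
    have hB' : Even (A' ∆ R).card := even_flip hA' hRodd
    have hmem : ∀ C, C ∈ vs G.1 ↔ C ∈ demiV A' S' := fun C => by rw [hvG]
    obtain ⟨H, h1, h2, h3⟩ := hclq ⟨{vec (A' ∆ {x})}, pt_face hd3 hB⟩ ⟨{vec (A' ∆ R)}, pt_face hd3 hB'⟩
      ((isMin_iff hd3 _).2 ⟨_, hB, rfl⟩) ((isMin_iff hd3 _).2 ⟨_, hB', rfl⟩)
      (by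
        show ({vec (A' ∆ {x})} : Set (E d)) ⊆ G.1
        have := (hmem (A' ∆ {x})).2 (flip_mem_demiV (hQ4 hx))
        simpa using this.2)
      (by
        show ({vec (A' ∆ R)} : Set (E d)) ⊆ G.1
        have := (hmem (A' ∆ R)).2 ⟨by rw [symm_symm]; exact hRodd, by rw [symm_symm]; exact hRS⟩
        simpa using this.2)
    have h1' : A' ∆ {x} ∈ vs H.1 := ⟨hB, by
      have : ({vec (A' ∆ {x})} : Set (E d)) ⊆ H.1 := h1
      simpa using this⟩
    have h2' : A' ∆ R ∈ vs H.1 := ⟨hB', by
      have : ({vec (A' ∆ R)} : Set (E d)) ⊆ H.1 := h2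
      simpa using this⟩
    rcases face_classify hd3 H.2 with ⟨A'', T'', hA'', hT'', hH⟩ | ⟨A'', S'', hA'', hS'', hu'', hH⟩
    · rw [hH, vs_simp hd3 hA'' hT''.card_pos] at h1' h2'
      obtain ⟨j, -, e1⟩ := h1'
      obtain ⟨j', -, e2⟩ := h2'
      have e3 : ({x} : Finset (Fin d)) ∆ R = {j} ∆ {j'} := by
        rw [← e1, ← e2, cancel_symm]
      have c1 := card_symm ({x} : Finset (Fin d)) R
      have c2 := card_symm ({j} : Finset (Fin d)) {j'}
      rw [← e3, Finset.card_singleton, Finset.card_singleton] at c2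
      have c3 : (({x} : Finset (Fin d)) ∩ R).card = 0 := by
        rw [Finset.card_eq_zero, Finset.singleton_inter_of_notMem hxR]
      rw [Finset.card_singleton, hRc] at c1
      omega
    · have hvH : vs H.1 = demiV A'' S'' := by rw [hH, vs_demi hA'' hS'' hu'']
      rw [hvH] at h1' h2'
      obtain ⟨y, hy⟩ : R.Nonempty := Finset.card_pos.1 (by omega)
      have hyx : y ≠ x := fun h => hxR (h ▸ hy)
      have hC : Even (A' ∆ {y}).card := even_flip hA' (by simp)
      have hCm : A' ∆ {y} ∈ demiV A'' S'' := by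
        exact ⟨(odd_symm hA'' _).2 hC, third_sub hxR hy h1'.2 h2'.2⟩
      have hCH : (⟨{vec (A' ∆ {y})}, pt_face hd3 hC⟩ : Fc d) ≤ H := by
        show ({vec (A' ∆ {y})} : Set (E d)) ⊆ H.1
        rw [← hvH] at hCm
        simpa using hCm.2
      rcases h3 _ ((isMin_iff hd3 _).2 ⟨_, hC, rfl⟩) hCH with h | h
      · have h5 : ({vec (A' ∆ {y})} : Set (E d)) = {vec (A' ∆ {x})} := congrArg Subtype.val h
        rw [Set.singleton_eq_singleton_iff] at h5
        have h6 := flip_inj A' (vec_inj h5)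
        exact hyx h6
      · have h5 : ({vec (A' ∆ {y})} : Set (E d)) = {vec (A' ∆ R)} := congrArg Subtype.val h
        rw [Set.singleton_eq_singleton_iff] at h5
        have h6 := congrArg (fun X => A' ∆ X) (vec_inj h5)
        simp only [symm_symm] at h6
        rw [← h6] at hRc
        simp at hRc
  · rintro ⟨A, T, hA, hT, hF⟩
    have hun : (univ : Finset (Fin d)).Nonempty := ⟨⟨0, by omega⟩, by simp⟩
    have hU := simp_face hd3 hA hun
    refine ⟨⟨simp' A univ, hU.1⟩, ?_, ?_, ?_⟩
    · show F.1 ⊆ simp' A univ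
      rw [hF]
      refine convexHull_mono (Set.image_mono ?_)
      rintro B ⟨j, _, h⟩
      exact ⟨j, by simp, h⟩
    · intro H hH
      have hsub := (face_subset hU.1 H.2).1 hH
      rw [hU.2] at hsub
      rcases face_classify hd3 H.2 with ⟨A', T', hA', hT', hH'⟩ | ⟨A', S', hA', hS', hu', hH'⟩
      · rw [hH', vs_simp hd3 hA' hT'.card_pos] at hsub
        have heq : simpV A univ = simpV A' T' := by
          refine Set.eq_of_subset_of_ncard_le hsub ?_ (Set.toFinite _)
          rw [simpV_ncard, simpV_ncard]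
          simpa using Finset.card_le_univ T'
        show H.1 ⊆ simp' A univ
        rw [hH', simp', simp', heq]
      · exfalso
        rw [hH', vs_demi hA' hS' hu'] at hsub
        have := (simpV_sub_demiV (by simp; omega) hsub).1
        exact hu' (Finset.univ_subset_iff.1 this)
    · intro m m' hm hm' hmG hmG'
      obtain ⟨B, hB, hmB⟩ := (isMin_iff hd3 m).1 hm
      obtain ⟨B', hB', hmB'⟩ := (isMin_iff hd3 m').1 hm'
      have e1 : B ∈ vs (simp' A univ) := ⟨hB, by
        have : m.1 ⊆ simp' A univ := hmG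
        rw [hmB] at this
        simpa using this⟩
      have e2 : B' ∈ vs (simp' A univ) := ⟨hB', by
        have : m'.1 ⊆ simp' A univ := hmG'
        rw [hmB'] at this
        simpa using this⟩
      rw [hU.2] at e1 e2
      obtain ⟨j, -, e1⟩ := e1
      obtain ⟨j', -, e2⟩ := e2
      have hjj : ({j, j'} : Finset (Fin d)).Nonempty := ⟨j, by simp⟩
      have hH := simp_face hd3 hA hjj
      refine ⟨⟨simp' A {j, j'}, hH.1⟩, ?_, ?_, ?_⟩
      · show m.1 ⊆ simp' A {j, j'}
        rw [hmB]
        have : B ∈ vs (simp' A {j, j'}) := by rw [hH.2]; exact ⟨j, by simp, e1⟩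
        simpa using this.2
      · show m'.1 ⊆ simp' A {j, j'}
        rw [hmB']
        have : B' ∈ vs (simp' A {j, j'}) := by rw [hH.2]; exact ⟨j', by simp, e2⟩
        simpa using this.2
      · intro n hn hnH
        obtain ⟨C, hC, hnC⟩ := (isMin_iff hd3 n).1 hn
        have e3 : C ∈ vs (simp' A {j, j'}) := ⟨hC, by
          have : n.1 ⊆ simp' A {j, j'} := hnH
          rw [hnC] at this
          simpa using this⟩
        rw [hH.2] at e3
        obtain ⟨i, hi, e3⟩ := e3
        simp only [Finset.mem_insert, Finset.mem_singleton] at hi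
        rcases hi with rfl | rfl
        · left
          apply Subtype.ext
          rw [hnC, hmB]
          have : C = B := by rw [← symm_symm A C, e3, ← e1, symm_symm]
          rw [this]
        · right
          apply Subtype.ext
          rw [hnC, hmB']
          have : C = B' := by rw [← symm_symm A C, e3, ← e2, symm_symm]
          rw [this]

end Pool.Agent.H9.DC
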