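import Mathlib
import Pool.Agent.H9.DC.Final

set_option autoImplicit false

/-! The number of flag orbits of the half cube. -/

namespace Pool.Agent.H9.DC

open Finset
open scoped symmDiff

variable {d : ℕ}

/-- the faces of the standard flag -/
noncomputable def stdFace (d t : ℕ) (A : Finset (Fin d)) (i : Fin d) : Set (E d) :=
  if i.val < t then simp' A (first d (i.val + 1)) else demi A (first d i.val)

lemma first_mono {m n : ℕ} (h : m ≤ n) : first d m ⊆ first d n := by
  intro i hi
  simp only [first, Finset.mem_filter, Finset.mem_univ, true_and] at hi ⊢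
  omega

lemma mem_first {m : ℕ} {i : Fin d} : i ∈ first d m ↔ i.val < m := by
  simp [first]

lemma stdFace_isFace {t : ℕ} (ht3 : 3 ≤ t) (htd : t ≤ d) {A : Finset (Fin d)} (hA : Odd A.card)
    (i : Fin d) : IsFace (P d) (stdFace d t A i) := by
  have hi := i.isLt
  unfold stdFace
  split_ifs with h
  · exact (simp_face (by omega) hA ⟨i, mem_first.2 (by omega)⟩).1
  · exact (demi_face hA ⟨⟨0, by omega⟩, mem_first.2 (by show 0 < i.val; omega)⟩
      (ne_univ_of_card (by rw [first_card _ _ (by omega)]; exact hi))).1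

lemma stdFace_mono {t : ℕ} (ht3 : 3 ≤ t) (htd : t ≤ d) {A : Finset (Fin d)} (hA : Odd A.card) :
    StrictMono (stdFace d t A) := by
  intro i j hij
  have hi := i.isLt
  have hj := j.isLt
  have hij' : i.val < j.val := hij
  have hfi := stdFace_isFace ht3 htd hA i
  have hfj := stdFace_isFace ht3 htd hA j
  have hvs : ∀ i : Fin d, vs (stdFace d t A i) =
      if i.val < t then simpV A (first d (i.val + 1)) else demiV A (first d i.val) := by
    intro i
    have hi := i.isLt
    unfold stdFace
    split_ifs with h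
    · exact vs_simp (by omega) hA (by rw [first_card _ _ (by omega)]; omega)
    · exact vs_demi hA (by rw [first_card _ _ (by omega)]; omega)
        (ne_univ_of_card (by rw [first_card _ _ (by omega)]; exact hi))
  refine ⟨(face_subset hfi hfj).2 ?_, fun hcon => ?_⟩
  · rw [hvs i, hvs j]
    split_ifs with h1 h2 h2
    · rintro B ⟨x, hx, h⟩
      exact ⟨x, first_mono (by omega) hx, h⟩
    · rintro B ⟨x, hx, h⟩
      refine ⟨by rw [h]; simp, ?_⟩
      rw [h, Finset.singleton_subset_iff]
      exact first_mono (by omega) hx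
    · omega
    · rintro B ⟨h3, h4⟩
      exact ⟨h3, h4.trans (first_mono hij'.le)⟩
  · have hcon' := (face_subset hfj hfi).1 hcon
    rw [hvs i, hvs j] at hcon'
    split_ifs at hcon' with h1 h2 h2
    · have := flip_mem_simpV_iff.1 (hcon' (flip_mem_simpV (j := j) (mem_first.2 (by omega))))
      rw [mem_first] at this
      omega
    · omega
    · exact demiV_not_sub_simpV (by rw [first_card _ _ (by omega)]; omega) hcon'
    · have := flip_mem_demiV_iff.1 (hcon' (flip_mem_demiV (j := i) (mem_first.2 hij')))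
      rw [mem_first] at this
      omega

/-- the number of simplex faces of a flag -/
noncomputable def tn (f : PFlag (P d)) : ℕ := by
  classical
  exact (univ.filter fun i : Fin d => BP (⟨f.face i, f.isFace i⟩ : Fc d)).card

lemma tn_eq (hd : 5 ≤ d) (f : PFlag (P d)) {A : Finset (Fin d)} {U : ℕ → Finset (Fin d)} {t : ℕ}
    (hA : Odd A.card) (ht3 : 3 ≤ t) (htd : t ≤ d) (hU : ∀ m, m ≤ d → (U m).card = m)
    (hf : ∀ i : Fin d, f.face i = if i.val < t then simp' A (U (i.val + 1)) else demi A (U i.val)) :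
    tn f = t := by
  classical
  have key : ∀ i : Fin d, BP (⟨f.face i, f.isFace i⟩ : Fc d) ↔ i.val < t := by
    intro i
    have hi := i.isLt
    rw [BP_iff hd]
    constructor
    · rintro ⟨A', T', hA', hT', h⟩
      by_contra hcon
      have h2 : f.face i = simp' A' T' := h
      rw [hf i, if_neg hcon] at h2
      have hc := hU i.val (by omega)
      exact demi_ne_simp (by omega) hA (by omega) (ne_univ_of_card (by omega)) hA' hT' h2.le
    · intro h
      refine ⟨A, U (i.val + 1), hA, Finset.card_pos.1 (by rw [hU _ (by omega)]; omega), ?_⟩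
      show f.face i = _
      rw [hf i, if_pos h]
  unfold tn
  rw [← first_card d t htd]
  congr 1
  ext i
  simp only [Finset.mem_filter, Finset.mem_univ, true_and, key i, mem_first]

lemma std_related (hd : 3 ≤ d) (f : PFlag (P d)) {A : Finset (Fin d)} {U : ℕ → Finset (Fin d)}
    {t : ℕ} (hA : Odd A.card) (hU : ∀ m, m ≤ d → (U m).card = m) (hUm : ∀ m, m < d → U m ⊆ U (m + 1))
    (hf : ∀ i : Fin d, f.face i = if i.val < t then simp' A (U (i.val + 1)) else demi A (U i.val)) :
    ∃ e : E d ≃ᵃⁱ[ℝ] E d, e '' P d = P d ∧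
      ∀ i, e '' stdFace d t {⟨0, by omega⟩} i = f.face i := by
  obtain ⟨σ, hσ⟩ := exists_perm U hU hUm
  set A0 : Finset (Fin d) := {⟨0, by omega⟩} with hA0
  set C : Finset (Fin d) := (A0.map σ.toEmbedding) ∆ A with hC
  have hCe : Even C.card := even_flip (by simp [hA0]) hA
  have hact : act σ C A0 = A := by
    rw [act, hC, symm_symm]
  refine ⟨(sg σ C).toAffineIsometryEquiv, ?_, fun i => ?_⟩
  · rw [LinearIsometryEquiv.coe_toAffineIsometryEquiv]
    exact sg_P σ hCe
  · have hi := i.isLt
    rw [LinearIsometryEquiv.coe_toAffineIsometryEquiv, hf i]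
    unfold stdFace
    split_ifs with h
    · rw [sg_simp, hact, hσ _ (by omega)]
    · rw [sg_demi, hact, hσ _ (by omega)]

lemma geom_of_tn (hd : 5 ≤ d) {f g : PFlag (P d)} (h : tn f = tn g) : (geomSetoid (P d)) f g := by
  obtain ⟨A, U, t, hA, ht3, htd, hU, hUm, hf⟩ := flag_structure (by omega) f.face f.isFace f.mono
  obtain ⟨A', U', t', hA', ht3', htd', hU', hUm', hg⟩ :=
    flag_structure (by omega) g.face g.isFace g.mono
  have e1 := tn_eq hd f hA ht3 htd hU hf
  have e2 := tn_eq hd g hA' ht3' htd' hU' hg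
  have ht : t = t' := by omega
  subst ht
  obtain ⟨e, he1, he2⟩ := std_related (by omega) f hA hU hUm hf
  obtain ⟨e', he1', he2'⟩ := std_related (by omega) g hA' hU' hUm' hg
  refine ⟨e.symm.trans e', ?_, fun i => ?_⟩
  · rw [AffineIsometryEquiv.coe_trans, Set.image_comp]
    have : e.symm '' P d = P d := by
      conv_lhs => rw [← he1]
      rw [Set.image_image]
      simp
    rw [this, he1']
  · rw [AffineIsometryEquiv.coe_trans, Set.image_comp, ← he2 i, ← he2' i]
    congr 1
    rw [Set.image_image]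
    simp

lemma tn_of_comb {f g : PFlag (P d)} (h : (combSetoid (P d)) f g) : tn f = tn g := by
  classical
  obtain ⟨φ, hφ⟩ := h
  unfold tn
  congr 1
  ext i
  simp only [Finset.mem_filter, Finset.mem_univ, true_and]
  rw [← hφ i, BP_iso_iff]

lemma tn_range (hd : 5 ≤ d) (f : PFlag (P d)) : 3 ≤ tn f ∧ tn f ≤ d := by
  obtain ⟨A, U, t, hA, ht3, htd, hU, hUm, hf⟩ := flag_structure (by omega) f.face f.isFace f.mono
  rw [tn_eq hd f hA ht3 htd hU hf]
  exact ⟨ht3, htd⟩

lemma tn_surj (hd : 5 ≤ d) {t : ℕ} (ht3 : 3 ≤ t) (htd : t ≤ d) : ∃ f : PFlag (P d), tn f = t := by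
  have hA : Odd ({⟨0, by omega⟩} : Finset (Fin d)).card := by simp
  refine ⟨⟨stdFace d t {⟨0, by omega⟩}, stdFace_isFace ht3 htd hA, stdFace_mono ht3 htd hA⟩, ?_⟩
  exact tn_eq hd _ (U := first d) hA ht3 htd (fun m hm => first_card d m hm) (fun i => rfl)

lemma card_quot {X : Type*} (s : Setoid X) (t : X → ℕ) (a b : ℕ) (h : ∀ x y, s x y ↔ t x = t y)
    (hr : ∀ x, a ≤ t x ∧ t x ≤ b) (hs : ∀ n, a ≤ n → n ≤ b → ∃ x, t x = n) :
    Nat.card (Quotient s) = b + 1 - a := by
  let g : Quotient s → {n // n ∈ Finset.Icc a b} :=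
    Quotient.lift (fun x => ⟨t x, Finset.mem_Icc.2 (hr x)⟩)
      (fun x y hxy => Subtype.ext ((h x y).1 hxy))
  have hg : Function.Bijective g := by
    constructor
    · intro x y
      induction x using Quotient.inductionOn with
      | _ x =>
      induction y using Quotient.inductionOn with
      | _ y =>
      intro hxy
      exact Quotient.sound ((h x y).2 (congrArg Subtype.val hxy))
    · rintro ⟨n, hn⟩
      rw [Finset.mem_Icc] at hn
      obtain ⟨x, hx⟩ := hs n hn.1 hn.2
      exact ⟨Quotient.mk s x, Subtype.ext hx⟩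
  rw [Nat.card_eq_of_bijective g hg, Nat.card_eq_fintype_card, Fintype.card_coe, Nat.card_Icc]

lemma geomOrbits_P (hd : 5 ≤ d) : geomOrbits (P d) = d - 2 := by
  unfold geomOrbits
  rw [card_quot (geomSetoid (P d)) tn 3 d
    (fun x y => ⟨fun h => tn_of_comb (geom_comb h), fun h => geom_of_tn hd h⟩)
    (tn_range hd) (fun n h1 h2 => tn_surj hd h1 h2)]
  omega

lemma combOrbits_P (hd : 5 ≤ d) : combOrbits (P d) = d - 2 := by
  unfold combOrbits
  rw [card_quot (combSetoid (P d)) tn 3 d
    (fun x y => ⟨fun h => tn_of_comb h, fun h => geom_comb (geom_of_tn hd h)⟩)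
    (tn_range hd) (fun n h1 h2 => tn_surj hd h1 h2)]
  omega

lemma single_mem (hd : 3 ≤ d) (i : Fin d) :
    EuclideanSpace.single i (1 : ℝ) ∈
      vectorSpan ℝ (vec '' {B : Finset (Fin d) | Even B.card}) := by
  obtain ⟨j, hj⟩ : ∃ j, j ≠ i := by
    haveI : Nontrivial (Fin d) := Fin.nontrivial_iff_two_le.2 (by omega)
    exact exists_ne i
  obtain ⟨k, hk⟩ : ∃ k, k ∉ ({i, j} : Finset (Fin d)) := by
    by_contra hno
    push Not at hno
    have h1 : (univ : Finset (Fin d)) ⊆ {i, j} := fun x _ => hno x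
    have h2 := Finset.card_le_card h1
    have h3 := Finset.card_le_two (a := i) (b := j)
    rw [Finset.card_univ, Fintype.card_fin] at h2
    omega
  simp only [Finset.mem_insert, Finset.mem_singleton, not_or] at hk
  have m1 : vec (∅ : Finset (Fin d)) - vec {i, j} ∈
      vectorSpan ℝ (vec '' {B : Finset (Fin d) | Even B.card}) :=
    vsub_mem_vectorSpan ℝ ⟨∅, by simp, rfl⟩ ⟨{i, j}, by
      show Even _
      rw [Finset.card_pair hj.symm]; decide, rfl⟩
  have m2 : vec ({j, k} : Finset (Fin d)) - vec {i, k} ∈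
      vectorSpan ℝ (vec '' {B : Finset (Fin d) | Even B.card}) :=
    vsub_mem_vectorSpan ℝ ⟨{j, k}, by
      show Even _
      rw [Finset.card_pair (Ne.symm hk.2)]; decide, rfl⟩ ⟨{i, k}, by
      show Even _
      rw [Finset.card_pair (Ne.symm hk.1)]; decide, rfl⟩
  have : EuclideanSpace.single i (1 : ℝ) =
      (1 / 4 : ℝ) • ((vec (∅ : Finset (Fin d)) - vec {i, j}) + (vec ({j, k} : Finset (Fin d)) - vec {i, k})) := by
    ext m
    by_cases h1 : m = i
    · subst h1
      simp [hj.symm, Ne.symm hk.1]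
      norm_num
    · by_cases h2 : m = j
      · subst h2
        simp [h1, Ne.symm hk.2]
        norm_num
      · by_cases h3 : m = k
        · subst h3
          simp [h1, h2]
        · simp [h1, h2, h3]
  rw [this]
  exact Submodule.smul_mem _ _ (Submodule.add_mem _ m1 m2)

lemma isPolytope_P (hd : 3 ≤ d) : IsPolytope (P d) := by
  refine ⟨⟨_, Set.toFinite _, rfl⟩, ?_⟩
  have hne : (vec '' {B : Finset (Fin d) | Even B.card}).Nonempty := ⟨_, ∅, by simp, rfl⟩
  rw [P, interior_convexHull_nonempty_iff_affineSpan_eq_top,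
    AffineSubspace.affineSpan_eq_top_iff_vectorSpan_eq_top_of_nonempty ℝ _ _ hne, eq_top_iff]
  rintro x -
  have h := (EuclideanSpace.basisFun (Fin d) ℝ).sum_repr x
  rw [← h]
  refine Submodule.sum_mem _ fun i _ => Submodule.smul_mem _ _ ?_
  rw [EuclideanSpace.basisFun_apply]
  exact single_mem hd i

end Pool.Agent.H9.DC
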